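import Mathlib

/-! Definitions: geodesic spaces, doubling spaces, and the game of cops and robber. -/

set_option autoImplicit false

open Filter Topology Set

namespace Pool.Agent.N272.Dbl

/-- A metric space is geodesic if any two points are joined by a path whose length (the supremum of
the lengths of inscribed polygons) is exactly their distance. -/
def IsGeodesicSpace (X : Type) [MetricSpace X] : Prop :=
  ∀ x y : X, ∃ p : ℝ → X, ContinuousOn p (Icc 0 1) ∧ p 0 = x ∧ p 1 = y ∧
    eVariationOn p (Icc 0 1) = edist x y

/-- The doubling constant is finite: for some `K`, every open ball of radius `r` is covered by at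
most `K` open balls of radius `r / 2`. -/
def IsDoublingSpace (X : Type) [MetricSpace X] : Prop :=
  ∃ K : ℕ, ∀ (x : X) (r : ℝ), 0 < r →
    ∃ F : Finset X, F.card ≤ K ∧ Metric.ball x r ⊆ ⋃ y ∈ F, Metric.ball y (r / 2)

/-- `c n i` is the position of cop `i` after step `n`. The cops start at `start`, and in step
`n + 1` each of them moves by at most `τ (n + 1)`. -/
def IsCopPlay {X : Type} [MetricSpace X] {k : ℕ} (start : Fin k → X) (τ : ℕ → ℝ)
    (c : ℕ → Fin k → X) : Prop :=
  c 0 = start ∧ ∀ (n : ℕ) (i : Fin k), dist (c n i) (c (n + 1) i) ≤ τ (n + 1)

/-- A strategy of the robber against `k` cops: starting positions of the cops, an agility function,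
and for every `n` the robber's position after his `n`-th move as a function of the earlier
positions `c 0, …, c (n - 1)` of the cops (for `n = 0` it is his starting point). His moves have to
be legal, whatever the cops do. -/
structure RobberStrategy (X : Type) [MetricSpace X] (k : ℕ) where
  /-- starting positions of the cops -/
  start : Fin k → X
  /-- the agility function -/
  τ : ℕ → ℝ
  /-- position of the robber after his `n`-th move -/
  pos : (n : ℕ) → (Fin n → Fin k → X) → X
  τ_pos : ∀ n, 0 < τ n
  τ_sum : Tendsto (fun N => ∑ n ∈ Finset.range N, τ (n + 1)) atTop atTop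
  legal : ∀ c : ℕ → Fin k → X, IsCopPlay start τ c → ∀ n : ℕ,
    dist (pos n fun j => c j) (pos (n + 1) fun j => c j) ≤ τ (n + 1)

/-- The robber strategy `S` wins: there is a positive constant such that against every play of the
cops, the distances between the robber and the cops are always at least this constant. -/
def RobberStrategy.Wins {X : Type} [MetricSpace X] {k : ℕ} (S : RobberStrategy X k) : Prop :=
  ∃ v : ℝ, 0 < v ∧ ∀ c : ℕ → Fin k → X, IsCopPlay S.start S.τ c →
    ∀ (n : ℕ) (i : Fin k), v ≤ dist (S.pos n fun j => c j) (c n i)

end Pool.Agent.N272.Dbl
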