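import Pool.Agent.N272.Dbl.Space

/-! The space is doubling. -/

set_option autoImplicit false

open Filter Topology Set

namespace Pool.Agent.N272.Dbl

open Classical in
/-- the code of a line through a point of the grid -/
noncomputable def lc (w : ℝ) (y : T) : Bool × ZMod 3 :=
  if h : Mem w y then
    (decide ((line_of_mem h).choose = 1), (((line_of_mem h).choose_spec.choose : ℤ) : ZMod 3))
  else (true, 0)

open Classical in
theorem lc_spec {w : ℝ} {y : T} (h : Mem w y) : ∃ (σ : ℝ) (j : ℤ), (σ = 1 ∨ σ = -1) ∧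
    y = ((σ * w + j / 3 : ℝ) : T) ∧ lc w y = (decide (σ = 1), (j : ZMod 3)) := by
  obtain ⟨hσ, hy⟩ := (line_of_mem h).choose_spec.choose_spec
  refine ⟨_, _, hσ, hy, ?_⟩
  unfold lc
  rw [dif_pos h]

theorem lc_eq {w w' : ℝ} {y y' : T} (h : Mem w y) (h' : Mem w' y') (e : lc w y = lc w' y') :
    ‖y - y'‖ ≤ |w - w'| := by
  classical
  obtain ⟨σ, j, hσ, hy, e1⟩ := lc_spec h
  obtain ⟨σ', j', hσ', hy', e2⟩ := lc_spec h'
  rw [e1, e2, Prod.mk.injEq] at e
  obtain ⟨e3, e4⟩ := e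
  have e5 : σ' = σ := by
    rcases hσ with rfl | rfl <;> rcases hσ' with rfl | rfl
    · rfl
    · norm_num at e3
    · norm_num at e3
    · rfl
  subst e5
  rw [ZMod.intCast_eq_intCast_iff_dvd_sub] at e4
  obtain ⟨m, hm⟩ := e4
  have hm' : (j' : ℝ) - j = 3 * m := by exact_mod_cast hm
  have e6 : y - y' = ((σ' * (w - w') : ℝ) : T) := by
    rw [hy, hy', ← AddCircle.coe_sub, coe_eq_iff]
    refine ⟨-m, ?_⟩
    push_cast
    linarith
  rw [e6]
  refine (norm_coe_le _).trans (le_of_eq ?_)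
  rw [abs_mul]
  rcases hσ with rfl | rfl <;> simp

theorem coarse {w w' d : ℝ} {x y : T} {σ : ℝ} {j : ℤ} (hσ : σ = 1 ∨ σ = -1)
    (hx : x = ((σ * w + j / 3 : ℝ) : T)) (hy : Mem w' y) (hd : ‖x - y‖ ≤ d) (hw : |w' - w| ≤ d)
    (hd' : d < 1 / 6) (hn : ¬ ‖((6 * w : ℝ) : T)‖ ≤ 6 * d) : y = ((σ * w' + j / 3 : ℝ) : T) := by
  obtain ⟨σ', j', hσ', hy'⟩ := line_of_mem hy
  have hσa : |σ| = 1 := by rcases hσ with rfl | rfl <;> simp
  have hcase : σ' = σ ∨ σ' = -σ := by
    rcases hσ with rfl | rfl <;> rcases hσ' with rfl | rfl <;> simp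
  rcases hcase with rfl | rfl
  · rw [hy', ← sub_eq_zero, ← AddCircle.coe_sub]
    have e : σ' * w' + (j' : ℝ) / 3 - (σ' * w' + j / 3) = ((j' - j : ℤ) : ℝ) / 3 := by
      push_cast
      ring
    rw [e]
    apply third_norm
    have e2 : ((((j' - j : ℤ) : ℝ) / 3 : ℝ) : T) = (y - x) - ((σ' * (w' - w) : ℝ) : T) := by
      rw [hx, hy', ← AddCircle.coe_sub, ← AddCircle.coe_sub]
      congr 1
      push_cast
      ring
    rw [e2]
    refine lt_of_le_of_lt (norm_sub_le _ _) ?_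
    have := norm_coe_le (σ' * (w' - w))
    rw [abs_mul, hσa, one_mul] at this
    rw [norm_sub_rev] at hd
    linarith
  · exfalso
    apply hn
    have e1 : ((6 * (σ * w) : ℝ) : T) = (3 : ℕ) • (x - y) - ((3 * (σ * (w' - w)) : ℝ) : T) := by
      rw [hx, hy', ← AddCircle.coe_sub, ← AddCircle.coe_nsmul, ← AddCircle.coe_sub, coe_eq_iff]
      refine ⟨j' - j, ?_⟩
      simp only [nsmul_eq_mul]
      push_cast
      ring
    have e2 : ‖((6 * (σ * w) : ℝ) : T)‖ = ‖((6 * w : ℝ) : T)‖ := by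
      rcases hσ with rfl | rfl
      · rw [one_mul]
      · rw [show 6 * (-1 * w) = -(6 * w) by ring, AddCircle.coe_neg, norm_neg]
    rw [← e2, e1]
    refine (norm_sub_le _ _).trans ?_
    have h1 := norm_nsmul_le (n := 3) (a := x - y)
    have h2 := norm_coe_le (3 * (σ * (w' - w)))
    rw [abs_mul, abs_mul, hσa, one_mul, abs_of_pos (show (0 : ℝ) < 3 by norm_num)] at h2
    push_cast at h1
    linarith

theorem half_norm : ‖((1 / 2 : ℝ) : T)‖ = 1 / 2 := by
  rw [norm_coe_eq]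
  have : round (1 / 2 : ℝ) = 1 := by
    rw [round_eq]
    norm_num
  rw [this]
  norm_num [abs_of_neg]

theorem unique_level {t r : ℝ} {n n' : ℕ} (h : n < n') (h' : 2 ^ n' * r < 1 / 24)
    (h1 : ‖((6 * (2 ^ n * t - 1 / 12) : ℝ) : T)‖ ≤ 6 * (2 ^ n * r))
    (h2 : ‖((6 * (2 ^ n' * t - 1 / 12) : ℝ) : T)‖ ≤ 6 * (2 ^ n' * r)) : False := by
  obtain ⟨k, rfl⟩ : ∃ k, n' = n + (k + 1) := ⟨n' - n - 1, by omega⟩
  have e1 : ((1 / 2 : ℝ) : T) = (2 ^ (k + 1) : ℕ) • ((6 * (2 ^ n * t - 1 / 12) : ℝ) : T) -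
      ((6 * (2 ^ (n + (k + 1)) * t - 1 / 12) : ℝ) : T) := by
    rw [← AddCircle.coe_nsmul, ← AddCircle.coe_sub, coe_eq_iff]
    refine ⟨2 ^ k, ?_⟩
    simp only [nsmul_eq_mul]
    push_cast
    rw [pow_add, pow_succ]
    ring
  have h3 := norm_nsmul_le (n := 2 ^ (k + 1)) (a := ((6 * (2 ^ n * t - 1 / 12) : ℝ) : T))
  have h4 := half_norm
  rw [e1] at h4
  have h5 := norm_sub_le ((2 ^ (k + 1) : ℕ) • ((6 * (2 ^ n * t - 1 / 12) : ℝ) : T))
    ((6 * (2 ^ (n + (k + 1)) * t - 1 / 12) : ℝ) : T)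
  rw [h4] at h5
  have h6 : ((2 ^ (k + 1) : ℕ) : ℝ) * ‖((6 * (2 ^ n * t - 1 / 12) : ℝ) : T)‖ ≤
      6 * (2 ^ (n + (k + 1)) * r) := by
    have := mul_le_mul_of_nonneg_left h1 (show (0 : ℝ) ≤ ((2 ^ (k + 1) : ℕ) : ℝ) by positivity)
    refine this.trans (le_of_eq ?_)
    push_cast
    rw [pow_add]
    ring
  linarith

/-- A finite set of centres from a finite set of codes. -/
theorem centres {C : Type} [Fintype C] {x : X} {r : ℝ} (code : X → C)
    (h : ∀ y y' : X, dist y x < r → dist y' x < r → code y = code y' → dist y y' < r / 2) :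
    ∃ F : Finset X, F.card ≤ Fintype.card C ∧ Metric.ball x r ⊆ ⋃ y ∈ F, Metric.ball y (r / 2) := by
  classical
  refine ⟨Finset.univ.image fun c : C => if h : ∃ y, dist y x < r ∧ code y = c then h.choose else x,
    Finset.card_image_le, ?_⟩
  intro y hy
  rw [Metric.mem_ball] at hy
  have hex : ∃ y', dist y' x < r ∧ code y' = code y := ⟨y, hy, rfl⟩
  rw [mem_iUnion₂]
  refine ⟨hex.choose, ?_, ?_⟩
  · rw [Finset.mem_image]
    exact ⟨code y, Finset.mem_univ _, dif_pos hex⟩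
  · rw [Metric.mem_ball]
    exact h _ _ hy hex.choose_spec.1 hex.choose_spec.2.symm

theorem doubling : IsDoublingSpace X := by
  classical
  refine ⟨Fintype.card (ZMod 100 × (Fin 9 → Bool × ZMod 3) × (Bool × ZMod 3)), ?_⟩
  intro x r hr
  obtain ⟨t, ht⟩ := exists_coe ((ofX x).1 0)
  have hu0 : ∀ y : X, ∃ u : ℝ, (u : T) = (ofX y).1 0 - (ofX x).1 0 ∧
      |u| = ‖(ofX y).1 0 - (ofX x).1 0‖ := by
    intro y
    obtain ⟨a, ha⟩ := exists_coe ((ofX y).1 0 - (ofX x).1 0)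
    refine ⟨a - round a, ?_, ?_⟩
    · rw [AddCircle.coe_sub, coe_int, sub_zero, ha]
    · rw [← ha, norm_coe_eq]
  choose u hu hu' using hu0
  have hy0 : ∀ y : X, ((t + u y : ℝ) : T) = (ofX y).1 0 := by
    intro y
    rw [AddCircle.coe_add, ht, hu]
    abel
  have hmem : ∀ (y : X) (n : ℕ), 1 ≤ n → Mem (2 ^ n * (t + u y) - 1 / 12) ((ofX y).1 n) := by
    intro y n hn
    have := (ofX y).2 n hn
    rwa [← hy0, mem_iff] at this
  have hmemx : ∀ n : ℕ, 1 ≤ n → Mem (2 ^ n * t - 1 / 12) ((ofX x).1 n) := by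
    intro n hn
    have := (ofX x).2 n hn
    rwa [← ht, mem_iff] at this
  have hex : ∃ n : ℕ, (1 / 2 : ℝ) ^ n ≤ 24 * r := by
    obtain ⟨n, hn⟩ := exists_pow_lt_of_lt_one (show (0 : ℝ) < 24 * r by positivity)
      (show (1 / 2 : ℝ) < 1 by norm_num)
    exact ⟨n, hn.le⟩
  set n₀ := Nat.find hex with hn₀
  have hn₀' : (1 / 2 : ℝ) ^ n₀ ≤ 24 * r := Nat.find_spec hex
  have hcoarse : ∀ n < n₀, 2 ^ n * r < 1 / 24 := by
    intro n hn
    have h1 := Nat.find_min hex hn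
    push Not at h1
    have h2 := mul_lt_mul_of_pos_left h1 (show (0 : ℝ) < 2 ^ n by positivity)
    rw [mul_comm ((2 : ℝ) ^ n) ((1 / 2) ^ n), two_pow_half] at h2
    linarith
  -- the exceptional level
  obtain ⟨ns, hns⟩ : ∃ ns : ℕ, ∀ n, 1 ≤ n → n < n₀ →
      ‖((6 * (2 ^ n * t - 1 / 12) : ℝ) : T)‖ ≤ 6 * (2 ^ n * r) → n = ns := by
    by_cases h : ∃ n, 1 ≤ n ∧ n < n₀ ∧ ‖((6 * (2 ^ n * t - 1 / 12) : ℝ) : T)‖ ≤ 6 * (2 ^ n * r)
    · obtain ⟨n, -, h2, h3⟩ := h
      refine ⟨n, fun n' _ h2' h3' => ?_⟩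
      rcases lt_trichotomy n' n with h4 | h4 | h4
      · exact (unique_level h4 (hcoarse _ h2) h3' h3).elim
      · exact h4
      · exact (unique_level h4 (hcoarse _ h2') h3 h3').elim
    · exact ⟨0, fun n h1 h2 h3 => absurd ⟨n, h1, h2, h3⟩ h⟩
  apply centres (C := ZMod 100 × (Fin 9 → Bool × ZMod 3) × (Bool × ZMod 3))
    (fun y => (((⌊u y / (r / 40)⌋ : ℤ) : ZMod 100),
      fun i => lc (2 ^ (n₀ + i.1) * (t + u y) - 1 / 12) ((ofX y).1 (n₀ + i.1)),
      lc (2 ^ ns * (t + u y) - 1 / 12) ((ofX y).1 ns)))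
  intro y y' hy hy' hc
  rw [Prod.mk.injEq, Prod.mk.injEq] at hc
  obtain ⟨c1, c2, c3⟩ := hc
  have hball : ∀ y : X, dist y x < r → dist (ofX x).1 (ofX y).1 ≤ r := by
    intro y hy
    have h1 := dist_le_X x y
    rw [dist_comm] at hy
    exact (h1.trans hy.le)
  have hur : ∀ y : X, dist y x < r → |u y| ≤ r := by
    intro y hy
    rw [hu', norm_sub_rev]
    have := norm_le_dist (ofX x).1 (ofX y).1 0
    rw [pow_zero, one_mul] at this
    exact this.trans (hball y hy)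
  have hq : ∀ y : X, dist y x < r → -41 < ⌊u y / (r / 40)⌋ ∧ ⌊u y / (r / 40)⌋ < 41 := by
    intro y hy
    have h1 := abs_le.mp (hur y hy)
    have h2 : -40 ≤ u y / (r / 40) := by
      rw [le_div_iff₀ (by positivity)]
      linarith
    have h3 : u y / (r / 40) ≤ 40 := by
      rw [div_le_iff₀ (by positivity)]
      linarith
    constructor
    · rw [Int.lt_iff_add_one_le, Int.le_floor]
      norm_num
      linarith
    · rw [Int.floor_lt]
      push_cast
      linarith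
  have hqq : ⌊u y / (r / 40)⌋ = ⌊u y' / (r / 40)⌋ := by
    rw [ZMod.intCast_eq_intCast_iff_dvd_sub] at c1
    have h1 := hq y hy
    have h2 := hq y' hy'
    push_cast at c1
    omega
  have hη : |u y - u y'| ≤ r / 40 := by
    have h1 := Int.abs_sub_lt_one_of_floor_eq_floor hqq
    rw [← sub_div, abs_div, abs_of_pos (show 0 < r / 40 by positivity), div_lt_one (by positivity)]
      at h1
    exact h1.le
  -- the bound for a level on the same line
  have hsame : ∀ n : ℕ, ‖(ofX y).1 n - (ofX y').1 n‖ ≤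
      |2 ^ n * (t + u y) - 1 / 12 - (2 ^ n * (t + u y') - 1 / 12)| →
      term (ofX y).1 (ofX y').1 n ≤ r / 40 := by
    intro n h
    unfold term
    have e : 2 ^ n * (t + u y) - 1 / 12 - (2 ^ n * (t + u y') - 1 / 12) = 2 ^ n * (u y - u y') := by
      ring
    rw [e, abs_mul, abs_of_pos (show (0 : ℝ) < 2 ^ n by positivity)] at h
    calc (1 / 2 : ℝ) ^ n * _ ≤ (1 / 2) ^ n * (2 ^ n * |u y - u y'|) :=
          mul_le_mul_of_nonneg_left h (by positivity)
      _ = |u y - u y'| := by rw [← mul_assoc, two_pow_half, one_mul]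
      _ ≤ _ := hη
  have hZ : dist (ofX y) (ofX y') ≤ r / 40 := by
    change dist (ofX y).1 (ofX y').1 ≤ r / 40
    apply dist_le
    intro n
    by_cases hn0 : n = 0
    · subst hn0
      apply hsame
      rw [← hy0, ← hy0, ← AddCircle.coe_sub]
      refine (norm_coe_le _).trans (le_of_eq ?_)
      congr 1
      ring
    have hn1 : 1 ≤ n := by omega
    by_cases hn2 : n₀ + 9 ≤ n
    · refine (term_le _ _ n).trans ?_
      have h5 : (1 / 2 : ℝ) ^ n ≤ (1 / 2 : ℝ) ^ (n₀ + 9) :=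
        pow_le_pow_of_le_one (by norm_num) (by norm_num) hn2
      rw [pow_add] at h5
      norm_num at h5 hn₀' ⊢
      linarith
    by_cases hn3 : n₀ ≤ n
    · apply hsame
      have h1 := congrFun c2 ⟨n - n₀, by omega⟩
      simp only at h1
      rw [show n₀ + (n - n₀) = n by omega] at h1
      exact lc_eq (hmem y n hn1) (hmem y' n hn1) h1
    push Not at hn3
    by_cases hn4 : ‖((6 * (2 ^ n * t - 1 / 12) : ℝ) : T)‖ ≤ 6 * (2 ^ n * r)
    · have h1 := hns n hn1 hn3 hn4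
      subst h1
      apply hsame
      exact lc_eq (hmem y n hn1) (hmem y' n hn1) c3
    · obtain ⟨σ, j, hσ, hx⟩ := line_of_mem (hmemx n hn1)
      have h24 := hcoarse n hn3
      have key : ∀ y : X, dist y x < r →
          (ofX y).1 n = ((σ * (2 ^ n * (t + u y) - 1 / 12) + j / 3 : ℝ) : T) := by
        intro y hy
        refine coarse hσ hx (hmem y n hn1) ?_ ?_ (by linarith) hn4
        · refine (norm_le_dist _ _ n).trans ?_
          exact mul_le_mul_of_nonneg_left (hball y hy) (by positivity)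
        · rw [show 2 ^ n * (t + u y) - 1 / 12 - (2 ^ n * t - 1 / 12) = 2 ^ n * u y by ring, abs_mul,
            abs_of_pos (show (0 : ℝ) < 2 ^ n by positivity)]
          exact mul_le_mul_of_nonneg_left (hur y hy) (by positivity)
      apply hsame
      rw [key y hy, key y' hy', ← AddCircle.coe_sub]
      refine (norm_coe_le _).trans (le_of_eq ?_)
      rw [add_sub_add_right_eq_sub, ← mul_sub, abs_mul]
      rcases hσ with rfl | rfl <;> simp
  have := X_dist_le y y'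
  linarith

end Pool.Agent.N272.Dbl
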