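import Pool.Agent.N272.Dbl.Space

/-! The robber evades any number of cops. -/

set_option autoImplicit false

open Filter Topology Set

namespace Pool.Agent.N272.Dbl

open Classical in
/-- the direction in which the robber flees -/
noncomputable def sgn (y : T) : ℝ := if ∃ a : ℝ, 0 ≤ a ∧ a ≤ 1 / 2 ∧ (a : T) = y then 1 else -1

theorem sgn_or (y : T) : sgn y = 1 ∨ sgn y = -1 := by
  classical
  unfold sgn
  split_ifs
  · exact Or.inl rfl
  · exact Or.inr rfl

theorem sgn_rep {y : T} (h : 1 / 6 ≤ ‖y‖) :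
    ∃ A : ℝ, (A : T) = y ∧ 1 / 6 ≤ sgn y * A ∧ sgn y * A ≤ 1 / 2 := by
  classical
  unfold sgn
  split_ifs with h1
  · obtain ⟨a, ha0, ha1, ha⟩ := h1
    refine ⟨a, ha, ?_, by linarith⟩
    have := norm_coe_le a
    rw [ha, abs_of_nonneg ha0] at this
    linarith
  · obtain ⟨a, ha⟩ := exists_coe y
    have h2 : ((a - round a : ℝ) : T) = y := by rw [AddCircle.coe_sub, coe_int, sub_zero, ha]
    have h3 : |a - round a| = ‖y‖ := by rw [← ha, norm_coe_eq]
    have h4 := norm_le_half y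
    refine ⟨a - round a, h2, ?_⟩
    rcases le_total 0 (a - round a) with h5 | h5
    · exfalso
      apply h1
      rw [abs_of_nonneg h5] at h3
      exact ⟨a - round a, h5, by linarith, h2⟩
    · rw [abs_of_nonpos h5] at h3
      constructor <;> linarith

/-- The robber is ahead of the cop: their relative position is between `1 / 6` and `1 / 2` at the
crossings, and increases by at most `2 / (12 Q)` in every step. -/
def Inv (Q m : ℕ) (σ : ℝ) (y : T) : Prop :=
  ∃ A : ℝ, (A : T) = y ∧ 1 / 6 ≤ σ * A ∧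
    σ * A ≤ 1 / 2 + 2 * (((m + Q) % (2 * Q) : ℕ) : ℝ) * (1 / (12 * Q))

theorem norm_ge {σ A : ℝ} (hσ : σ = 1 ∨ σ = -1) (h1 : 1 / 6 ≤ σ * A) (h2 : σ * A ≤ 5 / 6) :
    1 / 6 ≤ ‖(A : T)‖ := by
  have key : ∀ a : ℝ, 1 / 6 ≤ a → a ≤ 5 / 6 → 1 / 6 ≤ ‖(a : T)‖ := by
    intro a h1 h2
    rw [norm_coe_eq]
    rcases le_or_gt (round a) 0 with h3 | h3
    · have h4 : (round a : ℝ) ≤ 0 := by exact_mod_cast h3
      rw [abs_of_nonneg (by linarith)]
      linarith
    · have h4 : (1 : ℝ) ≤ round a := by exact_mod_cast h3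
      rw [abs_of_nonpos (by linarith)]
      linarith
  rcases hσ with rfl | rfl
  · exact key A (by linarith) (by linarith)
  · have := key (-A) (by linarith) (by linarith)
    rwa [AddCircle.coe_neg, norm_neg] at this

theorem Inv.norm_ge {Q m : ℕ} {σ : ℝ} {y : T} (hQ : 0 < Q) (hσ : σ = 1 ∨ σ = -1)
    (h : Inv Q m σ y) : 1 / 6 ≤ ‖y‖ := by
  obtain ⟨A, rfl, h1, h2⟩ := h
  refine Dbl.norm_ge hσ h1 (h2.trans ?_)
  have h3 : (m + Q) % (2 * Q) ≤ 2 * Q := (Nat.mod_lt _ (by omega)).le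
  have h4 : (((m + Q) % (2 * Q) : ℕ) : ℝ) ≤ 2 * Q := by exact_mod_cast h3
  have hQ' : (0 : ℝ) < Q := by exact_mod_cast hQ
  have h5 : 2 * (((m + Q) % (2 * Q) : ℕ) : ℝ) * (1 / (12 * Q)) ≤ 2 * (2 * Q) * (1 / (12 * Q)) := by
    gcongr
  have h6 : 2 * (2 * (Q : ℝ)) * (1 / (12 * Q)) = 1 / 3 := by
    field_simp
    norm_num
  linarith

theorem Inv.step {Q m : ℕ} {σ σ' : ℝ} {x x' c c' : T} (hQ : 0 < Q) (hσ : σ = 1 ∨ σ = -1)
    (h : Inv Q m σ (x - c)) (hx : x' = x + ((σ * (1 / (12 * Q)) : ℝ) : T))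
    (hc : ‖c' - c‖ ≤ 1 / (12 * Q))
    (h1 : 2 * Q ∣ m + 1 + Q → σ' = sgn (x' - c')) (h2 : ¬ 2 * Q ∣ m + 1 + Q → σ' = σ) :
    Inv Q (m + 1) σ' (x' - c') := by
  obtain ⟨A, hA, hA1, hA2⟩ := h
  set δ : ℝ := 1 / (12 * Q) with hδ
  set j := (m + Q) % (2 * Q) with hj
  have hQ' : (0 : ℝ) < Q := by exact_mod_cast hQ
  have hδ0 : 0 < δ := by positivity
  obtain ⟨b, hb, hb'⟩ : ∃ b : ℝ, (b : T) = c' - c ∧ |b| = ‖c' - c‖ := by
    obtain ⟨a, ha⟩ := exists_coe (c' - c)
    refine ⟨a - round a, ?_, ?_⟩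
    · rw [AddCircle.coe_sub, coe_int, sub_zero, ha]
    · rw [← ha, norm_coe_eq]
  have hbδ : |b| ≤ δ := by rw [hb']; exact hc
  have hb2 := abs_le.mp hbδ
  have hA' : ((A + σ * δ - b : ℝ) : T) = x' - c' := by
    rw [AddCircle.coe_sub, AddCircle.coe_add, hA, hb, hx]
    abel
  have hA3 : 1 / 6 ≤ σ * (A + σ * δ - b) ∧ σ * (A + σ * δ - b) ≤ 1 / 2 + 2 * ((j : ℝ) + 1) * δ := by
    rcases hσ with rfl | rfl <;> constructor <;> linarith
  have hjlt : j < 2 * Q := Nat.mod_lt _ (by omega)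
  have hdiv := Nat.div_add_mod (m + Q) (2 * Q)
  rw [← hj] at hdiv
  by_cases hd : 2 * Q ∣ m + 1 + Q
  · rw [h1 hd]
    have h3 : 1 / 6 ≤ ‖x' - c'‖ := by
      rw [← hA']
      refine Dbl.norm_ge hσ hA3.1 (hA3.2.trans ?_)
      have h4 : (j : ℝ) + 1 ≤ 2 * Q := by exact_mod_cast hjlt
      have h5 : 2 * ((j : ℝ) + 1) * δ ≤ 2 * (2 * Q) * δ := by gcongr
      have h6 : 2 * (2 * (Q : ℝ)) * δ = 1 / 3 := by
        rw [hδ]
        field_simp
        norm_num
      linarith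
    obtain ⟨B, hB, hB1, hB2⟩ := sgn_rep h3
    refine ⟨B, hB, hB1, hB2.trans ?_⟩
    have : 0 ≤ 2 * (((m + 1 + Q) % (2 * Q) : ℕ) : ℝ) * (1 / (12 * Q)) := by positivity
    linarith
  · rw [h2 hd]
    refine ⟨_, hA', hA3.1, hA3.2.trans (le_of_eq ?_)⟩
    have h7 : (m + 1 + Q) % (2 * Q) = j + 1 := by
      have h8 : j + 1 ≠ 2 * Q := by
        intro h9
        apply hd
        refine ⟨(m + Q) / (2 * Q) + 1, ?_⟩
        rw [mul_add, mul_one]
        omega
      rw [show m + 1 + Q = 2 * Q * ((m + Q) / (2 * Q)) + (j + 1) by omega, Nat.mul_add_mod,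
        Nat.mod_eq_of_lt (by omega)]
    rw [h7]
    push_cast
    ring

/-! ### The strategy -/

section

variable {k : ℕ}

open Classical in
/-- The new signs. -/
noncomputable def upd (m : ℕ) (σ : ℕ → ℝ) (x : Tor) (c : Fin k → X) (n : ℕ) : ℝ :=
  if h : (1 ≤ n ∧ n ≤ k) ∧ 2 * 2 ^ (k - n) ∣ m + 2 ^ (k - n) then
    sgn (x n - (ofX (c ⟨n - 1, by omega⟩)).1 n) else σ n

/-- the agility -/
noncomputable def eps (k : ℕ) : ℝ := 1 / (12 * 2 ^ k)

theorem eps_pos (k : ℕ) : 0 < eps k := by unfold eps; positivity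

/-- The points reached along the lines with the given signs. -/
noncomputable def go (t : ℝ) (σ : ℕ → ℝ) (x : Tor) (r : ℝ) : Tor := fun n =>
  if n = 0 then ((t + r : ℝ) : T) else x n + ((σ n * (2 ^ n * r) : ℝ) : T)

/-- signs and position of the robber after `m` moves -/
noncomputable def st (c : ℕ → Fin k → X) : ℕ → (ℕ → ℝ) × Tor
  | 0 => (fun _ => 1, fun n => if n = 0 then 0 else ((-(1 / 12) : ℝ) : T))
  | m + 1 => (upd m (st c m).1 (st c m).2 (c m),
      go (m * eps k) (upd m (st c m).1 (st c m).2 (c m)) (st c m).2 (eps k))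

theorem st_congr (c c' : ℕ → Fin k → X) (m : ℕ) (h : ∀ j < m, c j = c' j) : st c m = st c' m := by
  induction m with
  | zero => rfl
  | succ m ih =>
    rw [st, st, ih fun j hj => h j (by omega), h m (by omega)]

/-- the points whose level `n` coordinates are on the lines of sign `σ n` -/
def OnLine (t : ℝ) (σ : ℕ → ℝ) (x : Tor) : Prop :=
  x 0 = (t : T) ∧ ∀ n, 1 ≤ n → (σ n = 1 ∨ σ n = -1) ∧
    (3 : ℕ) • x n = ((σ n * (3 * (2 ^ n * t - 1 / 12)) : ℝ) : T)

theorem OnLine.mem {t : ℝ} {σ : ℕ → ℝ} {x : Tor} (h : OnLine t σ x) : x ∈ Zset := by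
  intro n hn
  obtain ⟨h1, h2⟩ := h.2 n hn
  rw [h.1, mem_iff]
  rcases h1 with h1 | h1
  · left
    rw [h2, h1, one_mul]
  · right
    rw [h2, h1, neg_one_mul]

theorem OnLine.go {t : ℝ} {σ : ℕ → ℝ} {x : Tor} (h : OnLine t σ x) (r : ℝ) :
    OnLine (t + r) σ (go t σ x r) := by
  refine ⟨by simp [Dbl.go], fun n hn => ⟨(h.2 n hn).1, ?_⟩⟩
  have e : Dbl.go t σ x r n = x n + ((σ n * (2 ^ n * r) : ℝ) : T) := by
    simp [Dbl.go, show n ≠ 0 by omega]
  rw [e, nsmul_add, (h.2 n hn).2, ← AddCircle.coe_nsmul, ← AddCircle.coe_add]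
  congr 1
  simp only [nsmul_eq_mul]
  push_cast
  ring

theorem go_zero {t : ℝ} {σ : ℕ → ℝ} {x : Tor} (h : OnLine t σ x) : Dbl.go t σ x 0 = x := by
  funext n
  by_cases hn : n = 0
  · subst hn
    simp [Dbl.go, h.1]
  · simp [Dbl.go, hn]

/-- Moving along lines takes the expected time. -/
theorem go_dist {t : ℝ} {σ : ℕ → ℝ} {x : Tor} (h : OnLine t σ x) {r : ℝ} (hr : 0 ≤ r) :
    dist (toX ⟨x, h.mem⟩) (toX ⟨Dbl.go t σ x r, (h.go r).mem⟩) ≤ r := by
  have hs : Slow (fun r => (⟨Dbl.go t σ x r, (h.go r).mem⟩ : Z)) := by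
    intro r r'
    change dist (Dbl.go t σ x r) (Dbl.go t σ x r') ≤ |r - r'|
    apply dist_le
    intro n
    unfold term
    by_cases hn : n = 0
    · subst hn
      have e : Dbl.go t σ x r 0 - Dbl.go t σ x r' 0 = ((r - r' : ℝ) : T) := by
        simp only [Dbl.go, if_true]
        rw [← AddCircle.coe_sub]
        congr 1
        ring
      rw [e, pow_zero, one_mul]
      exact norm_coe_le _
    · have e : Dbl.go t σ x r n - Dbl.go t σ x r' n = ((σ n * (2 ^ n * (r - r')) : ℝ) : T) := by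
        simp only [Dbl.go, if_neg hn]
        rw [add_sub_add_left_eq_sub, ← AddCircle.coe_sub]
        congr 1
        ring
      rw [e]
      have h1 := norm_coe_le (σ n * (2 ^ n * (r - r')))
      have h2 : |σ n * (2 ^ n * (r - r'))| = 2 ^ n * |r - r'| := by
        rw [abs_mul, abs_mul, abs_of_pos (show (0 : ℝ) < 2 ^ n by positivity)]
        rcases (h.2 n (by omega)).1 with h3 | h3 <;> simp [h3]
      rw [h2] at h1
      calc (1 / 2 : ℝ) ^ n * _ ≤ (1 / 2) ^ n * (2 ^ n * |r - r'|) :=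
            mul_le_mul_of_nonneg_left h1 (by positivity)
        _ = |r - r'| := by rw [← mul_assoc, two_pow_half, one_mul]
  have h1 := hs.ld_le 0 r
  rw [zero_sub, abs_neg, abs_of_nonneg hr] at h1
  have h2 : (⟨Dbl.go t σ x 0, (h.go 0).mem⟩ : Z) = ⟨x, h.mem⟩ := Subtype.ext (go_zero h)
  rw [h2] at h1
  exact h1

theorem OnLine.upd {m : ℕ} {σ : ℕ → ℝ} {x : Tor} (h : OnLine (m * eps k) σ x) (c : Fin k → X) :
    OnLine (m * eps k) (upd m σ x c) x := by
  refine ⟨h.1, fun n hn => ?_⟩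
  unfold Dbl.upd
  split_ifs with h1
  · refine ⟨sgn_or _, ?_⟩
    obtain ⟨⟨-, h2⟩, s, hs⟩ := h1
    rw [(h.2 n hn).2, coe_eq_iff]
    have hw : 6 * ((2 : ℝ) ^ n * (m * eps k) - 1 / 12) = ((s : ℤ) - 1 : ℤ) := by
      have hs' : (m : ℝ) + 2 ^ (k - n) = 2 * 2 ^ (k - n) * s := by exact_mod_cast hs
      have hk : (2 : ℝ) ^ k = 2 ^ n * 2 ^ (k - n) := by rw [← pow_add]; congr 1; omega
      unfold eps
      rw [hk]
      have hm : (m : ℝ) = 2 * 2 ^ (k - n) * s - 2 ^ (k - n) := by linarith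
      rw [hm]
      push_cast
      field_simp
      ring
    set w : ℝ := 2 ^ n * (m * eps k) - 1 / 12 with hw'
    rcases (h.2 n hn).1 with h3 | h3 <;>
      rcases sgn_or (x n - (ofX (c ⟨n - 1, by omega⟩)).1 n) with h4 | h4 <;> rw [h3, h4]
    · exact ⟨0, by simp⟩
    · exact ⟨s - 1, by linarith⟩
    · exact ⟨-(s - 1), by push_cast at hw ⊢; linarith⟩
    · exact ⟨0, by simp⟩
  · exact h.2 n hn

theorem st_onLine (c : ℕ → Fin k → X) (m : ℕ) :
    OnLine (m * eps k) (st c m).1 (st c m).2 := by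
  induction m with
  | zero =>
    refine ⟨by simp [st], fun n hn => ⟨Or.inl rfl, ?_⟩⟩
    have e : (st c 0).2 n = ((-(1 / 12) : ℝ) : T) := by simp [st, show n ≠ 0 by omega]
    rw [e, ← AddCircle.coe_nsmul]
    congr 1
    simp only [nsmul_eq_mul, st]
    push_cast
    ring
  | succ m ih =>
    have := (ih.upd (c m)).go (eps k)
    rw [show ((m + 1 : ℕ) : ℝ) * eps k = m * eps k + eps k by push_cast; ring]
    exact this

/-- the position of the robber after `m` moves -/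
noncomputable def rob (c : ℕ → Fin k → X) (m : ℕ) : X := toX ⟨(st c m).2, (st_onLine c m).mem⟩

theorem rob_congr (c c' : ℕ → Fin k → X) (m : ℕ) (h : ∀ j < m, c j = c' j) :
    rob c m = rob c' m := by
  unfold rob
  congr 1
  exact Subtype.ext (congrArg Prod.snd (st_congr c c' m h))

theorem rob_step (c : ℕ → Fin k → X) (m : ℕ) : dist (rob c m) (rob c (m + 1)) ≤ eps k :=
  go_dist ((st_onLine c m).upd (c m)) (eps_pos k).le

/-- the starting point of the cops -/
noncomputable def copStart : X := toX ⟨fun n => if n = 0 then 0 else ((5 / 12 : ℝ) : T), by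
  intro n hn
  right
  simp only [show n ≠ 0 by omega, if_false, if_true]
  rw [← AddCircle.coe_zero, P_coe, ← AddCircle.coe_nsmul, ← AddCircle.coe_neg, coe_eq_iff]
  refine ⟨1, ?_⟩
  simp only [nsmul_eq_mul]
  push_cast
  ring⟩

theorem main (c : ℕ → Fin k → X) (hc : IsCopPlay (fun _ => copStart) (fun _ => eps k) c) (m : ℕ)
    (i : Fin k) :
    Inv (2 ^ (k - (i.1 + 1))) m (upd m (st c m).1 (st c m).2 (c m) (i.1 + 1))
      ((st c m).2 (i.1 + 1) - (ofX (c m i)).1 (i.1 + 1)) := by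
  set n := i.1 + 1 with hn
  have hin : i.1 + 1 ≤ k := i.2
  set Q := 2 ^ (k - n) with hQ
  have hQ0 : 0 < Q := by positivity
  induction m with
  | zero =>
    have h1 : ¬ ((1 ≤ n ∧ n ≤ k) ∧ 2 * 2 ^ (k - n) ∣ 0 + 2 ^ (k - n)) := by
      rintro ⟨-, h1⟩
      have := Nat.le_of_dvd (by positivity) h1
      rw [← hQ] at this
      omega
    unfold upd
    rw [dif_neg h1]
    refine ⟨1 / 2, ?_, ?_, ?_⟩
    · rw [hc.1]
      have e1 : (st c 0).2 n = ((-(1 / 12) : ℝ) : T) := by simp [st, show n ≠ 0 by omega]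
      have e2 : (ofX (copStart)).1 n = ((5 / 12 : ℝ) : T) := by
        simp [copStart, ofX, toX, show n ≠ 0 by omega]
      rw [e1, e2, ← AddCircle.coe_sub, coe_eq_iff]
      exact ⟨1, by norm_num⟩
    · simp only [st]
      norm_num
    · simp only [st, one_mul]
      have : 0 ≤ 2 * (((0 + Q) % (2 * Q) : ℕ) : ℝ) * (1 / (12 * Q)) := by positivity
      linarith
  | succ m ih =>
    have hs : upd m (st c m).1 (st c m).2 (c m) n = 1 ∨
        upd m (st c m).1 (st c m).2 (c m) n = -1 :=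
      (((st_onLine c m).upd (c m)).2 n (by omega)).1
    have hδ : (2 : ℝ) ^ n * eps k = 1 / (12 * Q) := by
      have hk : (2 : ℝ) ^ k = 2 ^ n * 2 ^ (k - n) := by rw [← pow_add]; congr 1; omega
      unfold eps
      rw [hk, hQ]
      push_cast
      field_simp
    refine Inv.step hQ0 hs ih ?_ ?_ ?_ ?_
    · have e : (st c (m + 1)).2 n = (st c m).2 n +
          ((upd m (st c m).1 (st c m).2 (c m) n * (2 ^ n * eps k) : ℝ) : T) := by
        simp only [st, go]
        rw [if_neg (by omega)]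
      rw [e, hδ]
    · have h1 := hc.2 m i
      have h2 := (dist_le_X (c m i) (c (m + 1) i)).trans h1
      have h3 := norm_le_dist (ofX (c m i)).1 (ofX (c (m + 1) i)).1 n
      rw [norm_sub_rev, ← hδ]
      exact h3.trans (mul_le_mul_of_nonneg_left h2 (by positivity))
    · intro hd
      have h1 : (1 ≤ n ∧ n ≤ k) ∧ 2 * 2 ^ (k - n) ∣ m + 1 + 2 ^ (k - n) := ⟨⟨by omega, by omega⟩, hd⟩
      rw [upd, dif_pos h1]
      congr
    · intro hd
      have h1 : ¬ ((1 ≤ n ∧ n ≤ k) ∧ 2 * 2 ^ (k - n) ∣ m + 1 + 2 ^ (k - n)) := fun h => hd h.2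
      rw [upd, dif_neg h1]
      rfl

theorem rob_far (c : ℕ → Fin k → X) (hc : IsCopPlay (fun _ => copStart) (fun _ => eps k) c)
    (m : ℕ) (i : Fin k) : (1 / 2 : ℝ) ^ k * (1 / 6) ≤ dist (rob c m) (c m i) := by
  have hin : i.1 + 1 ≤ k := i.2
  have h1 := main c hc m i
  have hs := (((st_onLine c m).upd (c m)).2 (i.1 + 1) (by omega)).1
  have h2 := h1.norm_ge (by positivity) hs
  have h3 := term_le_dist (ofX (rob c m)).1 (ofX (c m i)).1 (i.1 + 1)
  have h4 := dist_le_X (rob c m) (c m i)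
  have h5 : (1 / 2 : ℝ) ^ k ≤ (1 / 2) ^ (i.1 + 1) :=
    pow_le_pow_of_le_one (by norm_num) (by norm_num) hin
  calc (1 / 2 : ℝ) ^ k * (1 / 6) ≤ (1 / 2) ^ (i.1 + 1) * (1 / 6) := by gcongr
    _ ≤ (1 / 2) ^ (i.1 + 1) * ‖(st c m).2 (i.1 + 1) - (ofX (c m i)).1 (i.1 + 1)‖ := by gcongr
    _ ≤ dist (ofX (rob c m)).1 (ofX (c m i)).1 := h3
    _ ≤ _ := h4

/-- extension of a finite history -/
noncomputable def ext {m : ℕ} (h : Fin m → Fin k → X) : ℕ → Fin k → X := fun j =>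
  if hj : j < m then h ⟨j, hj⟩ else fun _ => copStart

theorem rob_ext (c : ℕ → Fin k → X) (m : ℕ) : rob (ext fun j : Fin m => c j) m = rob c m := by
  apply rob_congr
  intro j hj
  simp [ext, hj]

end

/-- The strategy of the robber against `k` cops. -/
noncomputable def strat (k : ℕ) : RobberStrategy X k where
  start := fun _ => copStart
  τ := fun _ => eps k
  pos := fun m h => rob (ext h) m
  τ_pos := fun _ => eps_pos k
  τ_sum := by
    simp only [Finset.sum_const, Finset.card_range, nsmul_eq_mul]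
    exact tendsto_natCast_atTop_atTop.atTop_mul_const (eps_pos k)
  legal := by
    intro c _ m
    rw [rob_ext, rob_ext]
    exact rob_step c m

theorem strat_wins (k : ℕ) : (strat k).Wins := by
  refine ⟨(1 / 2 : ℝ) ^ k * (1 / 6), by positivity, fun c hc m i => ?_⟩
  change _ ≤ dist (rob (ext fun j : Fin m => c j) m) (c m i)
  rw [rob_ext]
  exact rob_far c hc m i

end Pool.Agent.N272.Dbl
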