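import Mathlib

/-! The length of the shortest path in a compact metric space. -/

set_option autoImplicit false

open Filter Topology Set

namespace Pool.Agent.N272.Dbl

variable {W : Type} [MetricSpace W]

/-- `γ` is a path of speed at most one. -/
def Slow (γ : ℝ → W) : Prop := ∀ s t : ℝ, dist (γ s) (γ t) ≤ |s - t|

/-- `y` can be reached from `x` in time `ℓ`. -/
def ReachIn (x y : W) (l : ℝ) : Prop := 0 ≤ l ∧ ∃ γ : ℝ → W, Slow γ ∧ γ 0 = x ∧ γ l = y

/-- the least time in which `y` can be reached from `x` -/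
noncomputable def ld (x y : W) : ℝ := sInf {l | ReachIn x y l}

theorem reach_bdd (x y : W) : BddBelow {l | ReachIn x y l} := ⟨0, fun _ h => h.1⟩

theorem ld_le {x y : W} {l : ℝ} (h : ReachIn x y l) : ld x y ≤ l := csInf_le (reach_bdd x y) h

theorem ld_nonneg (x y : W) : 0 ≤ ld x y := Real.sInf_nonneg fun _ h => h.1

theorem ReachIn.symm {x y : W} {l : ℝ} (h : ReachIn x y l) : ReachIn y x l := by
  obtain ⟨h0, γ, hγ, h1, h2⟩ := h
  refine ⟨h0, fun s => γ (l - s), fun s t => ?_, by simpa using h2, by simpa using h1⟩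
  refine (hγ _ _).trans (le_of_eq ?_)
  rw [show l - s - (l - t) = -(s - t) by ring, abs_neg]

theorem ReachIn.trans {x y z : W} {l m : ℝ} (h : ReachIn x y l) (h' : ReachIn y z m) :
    ReachIn x z (l + m) := by
  obtain ⟨h0, γ, hγ, h1, h2⟩ := h
  obtain ⟨h0', γ', hγ', h1', h2'⟩ := h'
  refine ⟨by linarith, fun s => if s ≤ l then γ s else γ' (s - l), ?_, ?_, ?_⟩
  · have key : ∀ s t : ℝ, s ≤ l → l < t → dist (γ s) (γ' (t - l)) ≤ |s - t| := by
      intro s t hs ht
      have e1 := hγ s l
      have e2 := hγ' 0 (t - l)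
      rw [h2] at e1
      rw [h1'] at e2
      have := dist_triangle (γ s) y (γ' (t - l))
      rw [abs_of_nonpos (by linarith)] at e1 e2
      rw [abs_of_nonpos (by linarith)]
      linarith
    intro s t
    dsimp only
    split_ifs with hs ht ht
    · exact hγ s t
    · exact key s t hs (by linarith)
    · rw [dist_comm, abs_sub_comm]
      exact key t s ht (by linarith)
    · refine (hγ' _ _).trans (le_of_eq ?_)
      congr 1
      ring
  · simp [h0, h1]
  · by_cases hm : m = 0
    · subst hm
      have e : z = y := by rw [← h2', h1']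
      simp [h2, e]
    · have hm' : 0 < m := lt_of_le_of_ne h0' (Ne.symm hm)
      have hlm : ¬ l + m ≤ l := by linarith
      simp only [if_neg hlm]
      simpa using h2'

theorem dist_le_of_reach {x y : W} {l : ℝ} (h : ReachIn x y l) : dist x y ≤ l := by
  obtain ⟨h0, γ, hγ, h1, h2⟩ := h
  have := hγ 0 l
  rw [h1, h2] at this
  simpa [abs_of_nonneg h0] using this

variable {C : ℝ} (hC : ∀ x y : W, ∃ l, l ≤ C * dist x y ∧ ReachIn x y l)

include hC in
theorem reach_ne (x y : W) : {l | ReachIn x y l}.Nonempty := by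
  obtain ⟨l, -, h⟩ := hC x y
  exact ⟨l, h⟩

include hC in
theorem dist_le_ld (x y : W) : dist x y ≤ ld x y :=
  le_csInf (reach_ne hC x y) fun _ h => dist_le_of_reach h

include hC in
theorem ld_le_mul (x y : W) : ld x y ≤ C * dist x y := by
  obtain ⟨l, h1, h2⟩ := hC x y
  exact (ld_le h2).trans h1

theorem ld_self (x : W) : ld x x = 0 := by
  refine le_antisymm (ld_le ⟨le_rfl, fun _ => x, fun s t => ?_, rfl, rfl⟩) (ld_nonneg x x)
  rw [dist_self]
  exact abs_nonneg _

theorem ld_comm (x y : W) : ld x y = ld y x := by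
  unfold ld
  congr 1
  ext l
  exact ⟨ReachIn.symm, ReachIn.symm⟩

include hC in
theorem ld_triangle (x y z : W) : ld x z ≤ ld x y + ld y z := by
  have h1 : ∀ ε : ℝ, 0 < ε → ld x z ≤ ld x y + ld y z + ε := by
    intro ε hε
    obtain ⟨l, hl, hl'⟩ := exists_lt_of_csInf_lt (reach_ne hC x y)
      (show sInf {l | ReachIn x y l} < ld x y + ε / 2 by
        change ld x y < _; linarith)
    obtain ⟨m, hm, hm'⟩ := exists_lt_of_csInf_lt (reach_ne hC y z)
      (show sInf {l | ReachIn y z l} < ld y z + ε / 2 by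
        change ld y z < _; linarith)
    have := ld_le (ReachIn.trans hl hm)
    linarith
  exact le_of_forall_pos_le_add h1

include hC in
/-- The least time is attained. -/
theorem ld_attained [CompactSpace W] (x y : W) : ReachIn x y (ld x y) := by
  have h0 : ∀ n : ℕ, ∃ l, ReachIn x y l ∧ l < ld x y + 1 / (n + 1 : ℝ) := by
    intro n
    obtain ⟨l, hl, hl'⟩ := exists_lt_of_csInf_lt (reach_ne hC x y)
      (show sInf {l | ReachIn x y l} < ld x y + 1 / (n + 1 : ℝ) by
        change ld x y < _
        have : (0 : ℝ) < 1 / (n + 1 : ℝ) := by positivity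
        linarith)
    exact ⟨l, hl, hl'⟩
  choose l hl hl' using h0
  choose hl0 γ hγ h1 h2 using hl
  -- a cluster point of the paths
  let U : Ultrafilter ℕ := hyperfilter ℕ
  have hlim : ∀ s : ℝ, ∃ z, Tendsto (fun n => γ n s) U (𝓝 z) := by
    intro s
    have := isCompact_univ.ultrafilter_le_nhds (U.map fun n => γ n s) (by simp)
    obtain ⟨z, -, hz⟩ := this
    exact ⟨z, hz⟩
  choose g hg using hlim
  have hgs : Slow g := by
    intro s t
    have h3 : Tendsto (fun n => dist (γ n s) (γ n t)) U (𝓝 (dist (g s) (g t))) :=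
      (hg s).dist (hg t)
    exact le_of_tendsto' h3 fun n => hγ n s t
  refine ⟨ld_nonneg x y, g, hgs, ?_, ?_⟩
  · have h3 : Tendsto (fun n => γ n 0) U (𝓝 x) := by
      simp only [h1]
      exact tendsto_const_nhds
    exact tendsto_nhds_unique (hg 0) h3
  · have hU : (U : Filter ℕ) ≤ atTop := by
      rw [← Nat.cofinite_eq_atTop]
      exact hyperfilter_le_cofinite
    have h4 : Tendsto (fun n => γ n (ld x y)) atTop (𝓝 y) := by
      rw [tendsto_iff_dist_tendsto_zero]
      refine squeeze_zero (fun _ => dist_nonneg) (fun n => ?_)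
        (tendsto_one_div_add_atTop_nhds_zero_nat (𝕜 := ℝ))
      have h5 := hγ n (ld x y) (l n)
      rw [h2] at h5
      refine h5.trans ?_
      have h6 : ld x y ≤ l n := ld_le ⟨hl0 n, γ n, hγ n, h1 n, h2 n⟩
      rw [abs_of_nonpos (by linarith)]
      have := hl' n
      linarith
    exact tendsto_nhds_unique (hg (ld x y)) (h4.mono_left hU)

/-- Along a path of speed at most one the new distance is at most the time. -/
theorem Slow.ld_le {γ : ℝ → W} (hγ : Slow γ) (s t : ℝ) : ld (γ s) (γ t) ≤ |s - t| := by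
  have key : ∀ s t : ℝ, s ≤ t → ld (γ s) (γ t) ≤ t - s := by
    intro s t hst
    refine Dbl.ld_le ⟨by linarith, fun u => γ (s + u), fun u v => ?_, by simp, by simp⟩
    refine (hγ _ _).trans (le_of_eq ?_)
    congr 1
    ring
  rcases le_total s t with h | h
  · rw [abs_of_nonpos (by linarith)]
    have := key s t h
    linarith
  · rw [ld_comm, abs_of_nonneg (by linarith)]
    have := key t s h
    linarith

end Pool.Agent.N272.Dbl
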