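import Mathlib

/-! One level of the space, in scaled form: the grid of the lines `y = ± w + j / 3`. -/

set_option autoImplicit false

open Set

namespace Pool.Agent.N272.Dbl

/-- the circle of length one -/
abbrev T : Type := AddCircle (1 : ℝ)

/-- the grid -/
def Mem (w : ℝ) (y : T) : Prop := (3 : ℕ) • y = ((3 * w : ℝ) : T) ∨ (3 : ℕ) • y = ((-(3 * w) : ℝ) : T)

/-- a section of the grid -/
def Sec (φ : ℝ → T) : Prop := (∀ w, Mem w (φ w)) ∧ ∀ w w', ‖φ w - φ w'‖ ≤ |w - w'|

theorem coe_int (m : ℤ) : ((m : ℝ) : T) = 0 := by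
  rw [AddCircle.coe_eq_zero_iff]
  exact ⟨m, by simp⟩

theorem coe_eq_iff (a b : ℝ) : (a : T) = b ↔ ∃ m : ℤ, a = b + m := by
  rw [← sub_eq_zero, ← AddCircle.coe_sub, AddCircle.coe_eq_zero_iff]
  constructor
  · rintro ⟨m, hm⟩
    exact ⟨m, by simp at hm; linarith⟩
  · rintro ⟨m, hm⟩
    exact ⟨m, by simp; linarith⟩

theorem exists_coe (y : T) : ∃ a : ℝ, (a : T) = y := by
  induction y using QuotientAddGroup.induction_on with
  | H u => exact ⟨u, rfl⟩

theorem norm_coe_le (a : ℝ) : ‖(a : T)‖ ≤ |a| := by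
  have h := AddCircle.norm_eq (p := (1 : ℝ)) (x := a)
  rw [h]
  simp only [inv_one, one_mul, mul_one]
  have := round_le a 0
  simpa using this

theorem norm_coe_eq (a : ℝ) : ‖(a : T)‖ = |a - round a| := by
  have h := AddCircle.norm_eq (p := (1 : ℝ)) (x := a)
  rw [h]
  simp

theorem mem_line (w σ : ℝ) (hσ : σ = 1 ∨ σ = -1) (j : ℤ) : Mem w ((σ * w + j / 3 : ℝ) : T) := by
  have h3 : (3 : ℕ) • ((σ * w + j / 3 : ℝ) : T) = ((3 * (σ * w) : ℝ) : T) := by
    rw [← AddCircle.coe_nsmul, coe_eq_iff]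
    refine ⟨j, ?_⟩
    simp only [nsmul_eq_mul]
    push_cast
    ring
  rcases hσ with rfl | rfl
  · left
    rw [h3]
    congr 1
    ring
  · right
    rw [h3]
    congr 1
    ring

theorem line_of_mem {w : ℝ} {y : T} (h : Mem w y) :
    ∃ (σ : ℝ) (j : ℤ), (σ = 1 ∨ σ = -1) ∧ y = ((σ * w + j / 3 : ℝ) : T) := by
  obtain ⟨a, rfl⟩ := exists_coe y
  rcases h with h | h
  · rw [← AddCircle.coe_nsmul, coe_eq_iff] at h
    obtain ⟨m, hm⟩ := h
    refine ⟨1, m, Or.inl rfl, ?_⟩
    congr 1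
    simp only [nsmul_eq_mul] at hm
    push_cast at hm
    linarith
  · rw [← AddCircle.coe_nsmul, coe_eq_iff] at h
    obtain ⟨m, hm⟩ := h
    refine ⟨-1, m, Or.inr rfl, ?_⟩
    congr 1
    simp only [nsmul_eq_mul] at hm
    push_cast at hm
    linarith

theorem sec_line (σ : ℝ) (hσ : σ = 1 ∨ σ = -1) (j : ℤ) :
    Sec (fun w => ((σ * w + j / 3 : ℝ) : T)) := by
  refine ⟨fun w => mem_line w σ hσ j, fun w w' => ?_⟩
  rw [← AddCircle.coe_sub]
  refine (norm_coe_le _).trans (le_of_eq ?_)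
  rw [show σ * w + (j : ℝ) / 3 - (σ * w' + j / 3) = σ * (w - w') by ring, abs_mul]
  rcases hσ with rfl | rfl <;> simp

/-- A real function whose graph is in the lines. -/
theorem sec_real (F : ℝ → ℝ) (h1 : ∀ w, ∃ (σ : ℝ) (j : ℤ), (σ = 1 ∨ σ = -1) ∧ F w = σ * w + j / 3)
    (h2 : ∀ w w', |F w - F w'| ≤ |w - w'|) : Sec (fun w => (F w : T)) := by
  refine ⟨fun w => ?_, fun w w' => ?_⟩
  · obtain ⟨σ, j, hσ, h⟩ := h1 w
    change Mem w (F w : T)
    rw [h]
    exact mem_line w σ hσ j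
  · rw [← AddCircle.coe_sub]
    exact (norm_coe_le _).trans (h2 w w')

/-- the triangular wave -/
noncomputable def g (w : ℝ) : ℝ := |w - round (3 * w) / 3|

theorem g_nonneg (w : ℝ) : 0 ≤ g w := abs_nonneg _

theorem g_eq (w : ℝ) : g w = |3 * w - round (3 * w)| / 3 := by
  unfold g
  rw [show w - (round (3 * w) : ℝ) / 3 = (3 * w - round (3 * w)) / 3 by ring, abs_div]
  norm_num

theorem g_le (w : ℝ) : g w ≤ 1 / 6 := by
  rw [g_eq]
  have := abs_sub_round (3 * w)
  linarith

theorem g_line (w : ℝ) : ∃ (σ : ℝ) (j : ℤ), (σ = 1 ∨ σ = -1) ∧ g w = σ * w + j / 3 := by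
  unfold g
  rcases abs_choice (w - (round (3 * w) : ℝ) / 3) with h | h
  · refine ⟨1, -round (3 * w), Or.inl rfl, ?_⟩
    rw [h]
    push_cast
    ring
  · refine ⟨-1, round (3 * w), Or.inr rfl, ?_⟩
    rw [h]
    ring

theorem g_lip (w w' : ℝ) : |g w - g w'| ≤ |w - w'| := by
  have key : ∀ w w' : ℝ, g w ≤ g w' + |w - w'| := by
    intro w w'
    rw [g_eq, g_eq]
    have h1 := round_le (3 * w) (round (3 * w'))
    have h2 : |3 * w - (round (3 * w') : ℝ)| ≤ |3 * w - 3 * w'| + |3 * w' - round (3 * w')| := by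
      have := abs_add_le (3 * w - 3 * w') (3 * w' - round (3 * w'))
      simpa using this
    have h3 : |3 * w - 3 * w'| = 3 * |w - w'| := by
      rw [← mul_sub, abs_mul]
      norm_num
    rw [h3] at h2
    linarith
  rw [abs_le]
  have h1 := key w w'
  have h2 := key w' w
  rw [abs_sub_comm] at h2
  constructor <;> linarith

theorem abs_max_sub (a b a' b' c : ℝ) (h1 : |a - a'| ≤ c) (h2 : |b - b'| ≤ c) :
    |max a b - max a' b'| ≤ c :=
  (abs_max_sub_max_le_max a b a' b').trans (max_le h1 h2)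

theorem abs_min_sub (a b a' b' c : ℝ) (h1 : |a - a'| ≤ c) (h2 : |b - b'| ≤ c) :
    |min a b - min a' b'| ≤ c :=
  (abs_min_sub_min_le_max a b a' b').trans (max_le h1 h2)

/-- Every point of the grid is on a section which is the triangular wave after time `7 / 6`. -/
theorem merge {w0 : ℝ} {y : T} (h : Mem w0 y) :
    ∃ φ, Sec φ ∧ φ w0 = y ∧ ∀ w, w0 + 7 / 6 ≤ w → φ w = (g w : T) := by
  obtain ⟨σ, j, hσ, hy⟩ := line_of_mem h
  -- the lift
  set a : ℝ := σ * w0 + j / 3 with ha
  set m : ℤ := -⌊a - g w0⌋ with hm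
  have hf1 := Int.floor_le (a - g w0)
  have hf2 := Int.lt_floor_add_one (a - g w0)
  set x : ℝ := a + m with hx
  have hmr : (m : ℝ) = -⌊a - g w0⌋ := by rw [hm]; push_cast; ring
  have hx1 : g w0 ≤ x := by rw [hx, hmr]; linarith
  have hx2 : x ≤ g w0 + 1 := by rw [hx, hmr]; linarith
  have hxy : (x : T) = y := by
    rw [hy, coe_eq_iff]
    exact ⟨m, hx⟩
  have hx3 : x = σ * w0 + ((j + 3 * m : ℤ) : ℝ) / 3 := by
    rw [hx, ha]
    push_cast
    ring
  rcases hσ with rfl | rfl
  · refine ⟨fun w => ((min (g w + 1) (x + (w - w0)) : ℝ) : T), sec_real _ ?_ ?_, ?_, ?_⟩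
    · intro w
      rcases min_choice (g w + 1) (x + (w - w0)) with h1 | h1
      · obtain ⟨σ, i, hσ, hi⟩ := g_line w
        refine ⟨σ, i + 3, hσ, ?_⟩
        rw [h1, hi]
        push_cast
        ring
      · refine ⟨1, j + 3 * m, Or.inl rfl, ?_⟩
        rw [h1, hx3]
        ring
    · intro w w'
      refine abs_min_sub _ _ _ _ _ ?_ ?_
      · rw [add_sub_add_right_eq_sub]
        exact g_lip w w'
      · rw [show x + (w - w0) - (x + (w' - w0)) = w - w' by ring]
    · simp only [sub_self, add_zero]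
      rw [min_eq_right hx2, hxy]
    · intro w hw
      dsimp only
      have := g_le w
      rw [min_eq_left (by linarith [g_nonneg w0]), coe_eq_iff]
      exact ⟨1, by simp⟩
  · refine ⟨fun w => ((max (g w) (x - (w - w0)) : ℝ) : T), sec_real _ ?_ ?_, ?_, ?_⟩
    · intro w
      rcases max_choice (g w) (x - (w - w0)) with h1 | h1
      · rw [h1]
        exact g_line w
      · refine ⟨-1, j + 3 * m, Or.inr rfl, ?_⟩
        rw [h1, hx3]
        ring
    · intro w w'
      refine abs_max_sub _ _ _ _ _ (g_lip w w') ?_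
      rw [show x - (w - w0) - (x - (w' - w0)) = -(w - w') by ring, abs_neg]
    · simp only [sub_self, sub_zero]
      rw [max_eq_right hx1, hxy]
    · intro w hw
      dsimp only
      have h1 := g_nonneg w
      have h2 := g_le w0
      rw [max_eq_left (by linarith)]

/-- the clock path: up `8 δ`, down `9 δ`, and up -/
noncomputable def zig (δ s : ℝ) : ℝ := max (min s (16 * δ - s)) (s - 18 * δ)

theorem zig_lip (δ s s' : ℝ) : |zig δ s - zig δ s'| ≤ |s - s'| := by
  unfold zig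
  refine abs_max_sub _ _ _ _ _ (abs_min_sub _ _ _ _ _ le_rfl ?_) ?_
  · rw [show 16 * δ - s - (16 * δ - s') = -(s - s') by ring, abs_neg]
  · rw [sub_sub_sub_cancel_right]

theorem zig_zero {δ : ℝ} (h : 0 ≤ δ) : zig δ 0 = 0 := by
  unfold zig
  rw [min_eq_left (by linarith), max_eq_left (by linarith)]

theorem zig_end {δ u : ℝ} (h : |u| ≤ δ) : zig δ (18 * δ + u) = u := by
  unfold zig
  rw [abs_le] at h
  rw [min_eq_right (by linarith), max_eq_right (by linarith)]
  ring

theorem zig_scale (a δ s : ℝ) (ha : 0 ≤ a) : zig (a * δ) (a * s) = a * zig δ s := by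
  unfold zig
  rw [mul_max_of_nonneg _ _ ha, mul_min_of_nonneg _ _ ha]
  ring_nf

theorem third_norm {m : ℤ} (h : ‖((m / 3 : ℝ) : T)‖ < 1 / 3) : ((m / 3 : ℝ) : T) = 0 := by
  rw [norm_coe_eq] at h
  have h1 : |(m : ℝ) / 3 - round ((m : ℝ) / 3)| = |((m - 3 * round ((m : ℝ) / 3) : ℤ) : ℝ)| / 3 := by
    rw [← abs_of_pos (show (0 : ℝ) < 3 by norm_num), ← abs_div]
    congr 1
    rw [abs_of_pos (show (0 : ℝ) < 3 by norm_num)]
    push_cast
    ring
  rw [h1] at h
  have h2 : |((m - 3 * round ((m : ℝ) / 3) : ℤ) : ℝ)| < 1 := by linarith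
  have h3 : |m - 3 * round ((m : ℝ) / 3)| < 1 := by exact_mod_cast h2
  rw [Int.abs_lt_one_iff] at h3
  have h4 : (m : ℝ) = 3 * (round ((m : ℝ) / 3) : ℤ) := by
    have : m = 3 * round ((m : ℝ) / 3) := by omega
    exact_mod_cast this
  rw [AddCircle.coe_eq_zero_iff]
  exact ⟨round ((m : ℝ) / 3), by simp; linarith⟩

/-- Two points of the grid at distance at most `δ` are connected by sections along the clock path. -/
theorem connect {w0 u δ : ℝ} (hu : |u| ≤ δ) {y y' : T} (h : Mem w0 y) (h' : Mem (w0 + u) y')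
    (hd : ‖y - y'‖ ≤ δ) :
    ∃ φ φ' : ℝ → T, Sec φ ∧ Sec φ' ∧ φ w0 = y ∧ φ' (w0 + u) = y' ∧
      ∃ s, 0 ≤ s ∧ s ≤ 18 * δ + u ∧ φ (w0 + zig δ s) = φ' (w0 + zig δ s) := by
  have hδ : 0 ≤ δ := (abs_nonneg u).trans hu
  have hu' := abs_le.mp hu
  rcases le_or_gt (1 / 6) δ with hf | hf
  · obtain ⟨φ, h1, h2, h3⟩ := merge h
    obtain ⟨φ', h1', h2', h3'⟩ := merge h'
    refine ⟨φ, φ', h1, h1', h2, h2', 8 * δ, by linarith, by linarith, ?_⟩
    have e : zig δ (8 * δ) = 8 * δ := by
      unfold zig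
      rw [min_eq_left (by linarith), max_eq_left (by linarith)]
    rw [e, h3 _ (by linarith), h3' _ (by linarith)]
  · obtain ⟨σ, j, hσ, hy⟩ := line_of_mem h
    obtain ⟨σ', j', hσ', hy'⟩ := line_of_mem h'
    have hσ2 : σ * σ = 1 := by rcases hσ with rfl | rfl <;> norm_num
    have hσa : |σ| = 1 := by rcases hσ with rfl | rfl <;> simp
    have hcase : σ' = σ ∨ σ' = -σ := by
      rcases hσ with rfl | rfl <;> rcases hσ' with rfl | rfl <;> simp
    rcases hcase with rfl | rfl
    · refine ⟨_, _, sec_line σ' hσ j, sec_line σ' hσ j, hy.symm, ?_, 0, le_rfl, by linarith, rfl⟩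
      rw [hy', ← sub_eq_zero, ← AddCircle.coe_sub]
      have e : σ' * (w0 + u) + (j : ℝ) / 3 - (σ' * (w0 + u) + j' / 3) = ((j - j' : ℤ) : ℝ) / 3 := by
        push_cast
        ring
      rw [e]
      apply third_norm
      have e2 : ((((j - j' : ℤ) : ℝ) / 3 : ℝ) : T) = (y - y') + ((σ' * u : ℝ) : T) := by
        rw [hy, hy', ← AddCircle.coe_sub, ← AddCircle.coe_add]
        congr 1
        push_cast
        ring
      rw [e2]
      refine lt_of_le_of_lt (norm_add_le _ _) ?_
      have := norm_coe_le (σ' * u)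
      rw [abs_mul, hσa, one_mul] at this
      linarith
    · set e0 : ℝ := σ * w0 + j / 3 + σ * (w0 + u) - j' / 3 with he0
      have hc : (e0 : T) = y - y' := by
        rw [hy, hy', ← AddCircle.coe_sub]
        congr 1
        rw [he0]
        ring
      have he : |e0 - round e0| ≤ δ := by
        rw [← norm_coe_eq, hc]
        exact hd
      set e : ℝ := e0 - round e0 with hee
      set v : ℝ := (u - σ * e) / 2 with hv
      have hv' : |v| ≤ δ := by
        have h1 : |u - σ * e| ≤ |u| + |σ * e| := abs_sub _ _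
        rw [abs_mul, hσa, one_mul] at h1
        rw [hv, abs_div]
        norm_num
        linarith
      have hv2 := abs_le.mp hv'
      refine ⟨_, _, sec_line σ hσ j, sec_line (-σ) (by rcases hσ with rfl | rfl <;> simp) j',
        hy.symm, hy'.symm, 16 * δ - v, by linarith, by linarith, ?_⟩
      have ez : zig δ (16 * δ - v) = v := by
        unfold zig
        rw [min_eq_right (by linarith), max_eq_left (by linarith)]
        ring
      rw [ez, coe_eq_iff]
      refine ⟨round e0, ?_⟩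
      have h5 : 2 * (σ * v) = σ * u - e := by
        rw [hv]
        have : σ * (σ * e) = e := by rw [← mul_assoc, hσ2, one_mul]
        linarith
      have h6 : (round e0 : ℝ) = e0 - e := by rw [hee]; ring
      rw [h6, he0]
      linarith

end Pool.Agent.N272.Dbl
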