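import Pool.Agent.N272.Dbl.Defs
import Pool.Agent.N272.Dbl.Len
import Pool.Agent.N272.Dbl.Tri

/-! The space: a closed subset of the infinite torus, with the metric given by the lengths of paths. -/

set_option autoImplicit false

open Filter Topology Set

namespace Pool.Agent.N272.Dbl

/-! ### The infinite torus -/

/-- The infinite torus. -/
def Tor : Type := ℕ → T

/-- the `n`-th term of the supremum defining the distance -/
noncomputable def term (x y : Tor) (n : ℕ) : ℝ := (1 / 2 : ℝ) ^ n * ‖x n - y n‖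

theorem norm_le_half (a : T) : ‖a‖ ≤ 1 / 2 := by
  have := AddCircle.norm_le_half_period (p := (1 : ℝ)) one_ne_zero (x := a)
  simpa using this

theorem term_nonneg (x y : Tor) (n : ℕ) : 0 ≤ term x y n := by
  unfold term; positivity

theorem term_le (x y : Tor) (n : ℕ) : term x y n ≤ (1 / 2 : ℝ) ^ n * (1 / 2) := by
  unfold term
  exact mul_le_mul_of_nonneg_left (norm_le_half _) (by positivity)

theorem term_le_one (x y : Tor) (n : ℕ) : term x y n ≤ 1 := by
  refine (term_le x y n).trans ?_
  have : (1 / 2 : ℝ) ^ n ≤ 1 := pow_le_one₀ (by norm_num) (by norm_num)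
  linarith

theorem term_bdd (x y : Tor) : BddAbove (range (term x y)) := ⟨1, by
  rintro _ ⟨n, rfl⟩
  exact term_le_one x y n⟩

noncomputable instance : MetricSpace Tor where
  dist x y := ⨆ n, term x y n
  dist_self x := by simp [term]
  dist_comm x y := by
    congr 1
    funext n
    simp only [term]
    rw [norm_sub_rev]
  dist_triangle x y z := by
    apply ciSup_le
    intro n
    have h1 : term x z n ≤ term x y n + term y z n := by
      simp only [term]
      rw [← mul_add]
      apply mul_le_mul_of_nonneg_left _ (by positivity)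
      have : x n - z n = (x n - y n) + (y n - z n) := by abel
      rw [this]
      exact norm_add_le _ _
    exact h1.trans (add_le_add (le_ciSup (term_bdd x y) n) (le_ciSup (term_bdd y z) n))
  eq_of_dist_eq_zero := by
    intro x y h
    funext n
    have h1 : term x y n ≤ 0 := by
      rw [← h]
      exact le_ciSup (term_bdd x y) n
    have h2 : ‖x n - y n‖ ≤ 0 := by
      unfold term at h1
      by_contra h3
      push Not at h3
      have : 0 < (1 / 2 : ℝ) ^ n * ‖x n - y n‖ := by positivity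
      linarith
    exact sub_eq_zero.mp (norm_le_zero_iff.mp h2)

theorem term_le_dist (x y : Tor) (n : ℕ) : term x y n ≤ dist x y := le_ciSup (term_bdd x y) n

theorem dist_le {x y : Tor} {c : ℝ} (h : ∀ n, term x y n ≤ c) : dist x y ≤ c := ciSup_le h

theorem norm_le_dist (x y : Tor) (n : ℕ) : ‖x n - y n‖ ≤ 2 ^ n * dist x y := by
  have h := term_le_dist x y n
  unfold term at h
  have h2 : (2 : ℝ) ^ n * ((1 / 2) ^ n * ‖x n - y n‖) = ‖x n - y n‖ := by
    rw [← mul_assoc, ← mul_pow]
    norm_num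
  rw [← h2]
  exact mul_le_mul_of_nonneg_left h (by positivity)

theorem continuous_coord (n : ℕ) : Continuous fun x : Tor => x n := by
  have : LipschitzWith (2 ^ n) fun x : Tor => x n := by
    apply LipschitzWith.of_dist_le_mul
    intro x y
    rw [dist_eq_norm]
    have := norm_le_dist x y n
    simpa using this
  exact this.continuous

/-- The identity from the product to the torus. -/
def toTor (x : ℕ → T) : Tor := x

theorem continuous_toTor : Continuous toTor := by
  rw [continuous_iff_continuousAt]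
  intro x
  rw [ContinuousAt, tendsto_iff_dist_tendsto_zero]
  rw [Metric.tendsto_nhds]
  intro ε hε
  obtain ⟨N, hN⟩ := exists_pow_lt_of_lt_one (show (0 : ℝ) < ε / 2 by positivity)
    (show (1 / 2 : ℝ) < 1 by norm_num)
  have h1 : ∀ᶠ y in 𝓝 x, ∀ n ∈ Finset.range N, ‖y n - x n‖ < ε / 2 := by
    rw [Filter.eventually_all_finset]
    intro n _
    have h2 : Tendsto (fun y : ℕ → T => ‖y n - x n‖) (𝓝 x) (𝓝 ‖x n - x n‖) :=
      (((continuous_apply n).sub continuous_const).norm).tendsto x
    rw [sub_self, norm_zero] at h2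
    exact h2.eventually_lt_const (by positivity)
  filter_upwards [h1] with y hy
  rw [Real.dist_eq, sub_zero, abs_of_nonneg dist_nonneg]
  have h3 : dist (toTor y) (toTor x) ≤ ε / 2 := by
    apply dist_le
    intro n
    by_cases hn : n < N
    · have h4 := hy n (Finset.mem_range.mpr hn)
      have h5 : (1 / 2 : ℝ) ^ n ≤ 1 := pow_le_one₀ (by norm_num) (by norm_num)
      have h6 : term (toTor y) (toTor x) n = (1 / 2 : ℝ) ^ n * ‖y n - x n‖ := rfl
      rw [h6]
      have h7 : (1 / 2 : ℝ) ^ n * ‖y n - x n‖ ≤ 1 * ‖y n - x n‖ :=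
        mul_le_mul_of_nonneg_right h5 (norm_nonneg _)
      linarith
    · refine (term_le _ _ n).trans ?_
      have h5 : (1 / 2 : ℝ) ^ n ≤ (1 / 2 : ℝ) ^ N :=
        pow_le_pow_of_le_one (by norm_num) (by norm_num) (by lia)
      have h6 : (0 : ℝ) ≤ (1 / 2 : ℝ) ^ N := by positivity
      linarith
  linarith

instance : CompactSpace Tor := by
  have : Function.Surjective toTor := fun x => ⟨x, rfl⟩
  exact this.compactSpace continuous_toTor

/-! ### The subset -/

/-- the phase of level `n` at clock `c` -/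
noncomputable def P (n : ℕ) (c : T) : T := (3 * 2 ^ n : ℕ) • c - ((1 / 4 : ℝ) : T)

theorem P_coe (n : ℕ) (t : ℝ) : P n (t : T) = ((3 * (2 ^ n * t - 1 / 12) : ℝ) : T) := by
  unfold P
  rw [← AddCircle.coe_nsmul, ← AddCircle.coe_sub]
  congr 1
  simp only [nsmul_eq_mul]
  push_cast
  ring

/-- The clock is the coordinate `0`; the coordinates `n ≥ 1` are on the grids. -/
def Zset : Set Tor := {x | ∀ n, 1 ≤ n → (3 : ℕ) • x n = P n (x 0) ∨ (3 : ℕ) • x n = -P n (x 0)}

theorem mem_iff (n : ℕ) (t : ℝ) (y : T) :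
    ((3 : ℕ) • y = P n (t : T) ∨ (3 : ℕ) • y = -P n (t : T)) ↔ Mem (2 ^ n * t - 1 / 12) y := by
  rw [P_coe, ← AddCircle.coe_neg]
  rfl

theorem isClosed_Zset : IsClosed Zset := by
  have e : Zset = ⋂ n : ℕ, {x : Tor | 1 ≤ n → (3 : ℕ) • x n = P n (x 0) ∨
      (3 : ℕ) • x n = -P n (x 0)} := by
    ext x
    simp [Zset]
  rw [e]
  apply isClosed_iInter
  intro n
  by_cases hn : 1 ≤ n
  · simp only [hn, forall_true_left]
    have h1 : Continuous fun x : Tor => (3 : ℕ) • x n := (continuous_coord n).nsmul 3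
    have h2 : Continuous fun x : Tor => P n (x 0) :=
      ((continuous_coord 0).nsmul _).sub continuous_const
    exact (isClosed_eq h1 h2).union (isClosed_eq h1 h2.neg)
  · simp [hn]

/-- the subset as a space -/
def Z : Type := {x : Tor // x ∈ Zset}

noncomputable instance : MetricSpace Z := inferInstanceAs (MetricSpace {x : Tor // x ∈ Zset})

instance : CompactSpace Z := isCompact_iff_compactSpace.mp isClosed_Zset.isCompact

theorem Z_dist (x y : Z) : dist x y = dist x.1 y.1 := rfl

/-- Gluing of two sections along the clock path. -/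
theorem glue {φ φ' : ℝ → T} (h : ∀ w w', ‖φ w - φ w'‖ ≤ |w - w'|)
    (h' : ∀ w w', ‖φ' w - φ' w'‖ ≤ |w - w'|) {c : ℝ → ℝ} {K : ℝ}
    (hc : ∀ s s', |c s - c s'| ≤ K * |s - s'|) {r : ℝ} (hr : φ (c r) = φ' (c r)) (s s' : ℝ) :
    ‖(if s ≤ r then φ (c s) else φ' (c s)) - (if s' ≤ r then φ (c s') else φ' (c s'))‖ ≤
      K * |s - s'| := by
  have key : ∀ s s', s ≤ r → r < s' → ‖φ (c s) - φ' (c s')‖ ≤ K * |s - s'| := by
    intro s s' h1 h2
    have e : φ (c s) - φ' (c s') = (φ (c s) - φ (c r)) + (φ' (c r) - φ' (c s')) := by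
      rw [hr]; abel
    rw [e]
    refine (norm_add_le _ _).trans ?_
    have e1 := (h (c s) (c r)).trans (hc s r)
    have e2 := (h' (c r) (c s')).trans (hc r s')
    rw [abs_of_nonpos (by linarith)] at e1 e2
    rw [abs_of_nonpos (by linarith)]
    linarith
  split_ifs with h1 h2 h2
  · exact (h _ _).trans (hc _ _)
  · exact key s s' h1 (by linarith)
  · rw [norm_sub_rev, abs_sub_comm]
    exact key s' s h2 (by linarith)
  · exact (h' _ _).trans (hc _ _)

theorem two_pow_half (n : ℕ) : (1 / 2 : ℝ) ^ n * 2 ^ n = 1 := by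
  rw [← mul_pow]
  norm_num

/-- Points of the subset are connected by paths of at most `19` times their distance. -/
theorem quasi (x y : Z) : ∃ l, l ≤ 19 * dist x y ∧ ReachIn x y l := by
  obtain ⟨t, ht⟩ := exists_coe (x.1 0)
  obtain ⟨u, hu, hu'⟩ : ∃ u : ℝ, (u : T) = y.1 0 - x.1 0 ∧ |u| = ‖y.1 0 - x.1 0‖ := by
    obtain ⟨a, ha⟩ := exists_coe (y.1 0 - x.1 0)
    refine ⟨a - round a, ?_, ?_⟩
    · rw [AddCircle.coe_sub, coe_int, sub_zero, ha]
    · rw [← ha, norm_coe_eq]
  set δ : ℝ := dist x y with hδ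
  have hδ0 : 0 ≤ δ := dist_nonneg
  have huδ : |u| ≤ δ := by
    rw [hu', norm_sub_rev]
    have := norm_le_dist x.1 y.1 0
    rw [pow_zero, one_mul] at this
    exact this
  have hy0 : ((t + u : ℝ) : T) = y.1 0 := by
    rw [AddCircle.coe_add, ht, hu]
    abel
  have hlev : ∀ n : ℕ, ∃ φ φ' : ℝ → T, Sec φ ∧ Sec φ' ∧
      (1 ≤ n → φ (2 ^ n * t - 1 / 12) = x.1 n) ∧
      (1 ≤ n → φ' (2 ^ n * t - 1 / 12 + 2 ^ n * u) = y.1 n) ∧
      ∃ s, 0 ≤ s ∧ s ≤ 18 * (2 ^ n * δ) + 2 ^ n * u ∧
        φ (2 ^ n * t - 1 / 12 + zig (2 ^ n * δ) s) =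
          φ' (2 ^ n * t - 1 / 12 + zig (2 ^ n * δ) s) := by
    intro n
    by_cases hn : 1 ≤ n
    · have h1 := x.2 n hn
      rw [← ht, mem_iff] at h1
      have h2 := y.2 n hn
      rw [← hy0, mem_iff] at h2
      rw [show (2 : ℝ) ^ n * (t + u) - 1 / 12 = 2 ^ n * t - 1 / 12 + 2 ^ n * u by ring] at h2
      have h3 : |2 ^ n * u| ≤ 2 ^ n * δ := by
        rw [abs_mul, abs_of_pos (by positivity)]
        exact mul_le_mul_of_nonneg_left huδ (by positivity)
      obtain ⟨φ, φ', a1, a2, a3, a4, a5⟩ := connect h3 h1 h2 (norm_le_dist x.1 y.1 n)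
      exact ⟨φ, φ', a1, a2, fun _ => a3, fun _ => a4, a5⟩
    · refine ⟨_, _, sec_line 1 (Or.inl rfl) 0, sec_line 1 (Or.inl rfl) 0, fun h => absurd h hn,
        fun h => absurd h hn, 0, le_rfl, ?_, rfl⟩
      have h4 := (abs_le.mp huδ).1
      have : 0 ≤ 2 ^ n * (18 * δ + u) := mul_nonneg (by positivity) (by linarith)
      linarith
  choose φ φ' h1 h2 h3 h4 s hs0 hs1 hs2 using hlev
  set c : ℕ → ℝ → ℝ := fun n r => 2 ^ n * t - 1 / 12 + 2 ^ n * zig δ r with hc
  have hcz : ∀ n r, c n r = 2 ^ n * t - 1 / 12 + zig (2 ^ n * δ) (2 ^ n * r) := by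
    intro n r
    rw [zig_scale _ _ _ (by positivity)]
  have hclip : ∀ n r r', |c n r - c n r'| ≤ 2 ^ n * |r - r'| := by
    intro n r r'
    rw [show c n r - c n r' = 2 ^ n * (zig δ r - zig δ r') by simp only [hc]; ring, abs_mul,
      abs_of_pos (by positivity)]
    exact mul_le_mul_of_nonneg_left (zig_lip _ _ _) (by positivity)
  -- the path in the torus
  set γ : ℝ → Tor := fun r n => if n = 0 then ((t + zig δ r : ℝ) : T) else
    (if r ≤ (1 / 2) ^ n * s n then φ n (c n r) else φ' n (c n r)) with hγ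
  have hγ0 : ∀ r, γ r 0 = ((t + zig δ r : ℝ) : T) := fun r => by simp [hγ]
  have hγn : ∀ r n, n ≠ 0 → γ r n =
      if r ≤ (1 / 2) ^ n * s n then φ n (c n r) else φ' n (c n r) := fun r n hn => by
    simp [hγ, hn]
  have hmatch : ∀ n, φ n (c n ((1 / 2) ^ n * s n)) = φ' n (c n ((1 / 2) ^ n * s n)) := by
    intro n
    rw [hcz, show (2 : ℝ) ^ n * ((1 / 2) ^ n * s n) = s n by
      rw [← mul_assoc, mul_comm ((2 : ℝ) ^ n) ((1 / 2) ^ n), two_pow_half, one_mul]]
    exact hs2 n
  have hγZ : ∀ r, γ r ∈ Zset := by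
    intro r n hn
    rw [hγ0, mem_iff, hγn r n (by omega)]
    rw [show (2 : ℝ) ^ n * (t + zig δ r) - 1 / 12 = c n r by simp only [hc]; ring]
    split_ifs
    · exact (h1 n).1 _
    · exact (h2 n).1 _
  have hslow : Slow (fun r => (⟨γ r, hγZ r⟩ : Z)) := by
    intro r r'
    change dist (γ r) (γ r') ≤ |r - r'|
    apply dist_le
    intro n
    unfold term
    by_cases hn : n = 0
    · subst hn
      rw [hγ0, hγ0, ← AddCircle.coe_sub]
      have := (norm_coe_le (t + zig δ r - (t + zig δ r'))).trans_eq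
        (show _ = |zig δ r - zig δ r'| by congr 1; ring)
      simpa using this.trans (zig_lip _ _ _)
    · rw [hγn r n hn, hγn r' n hn]
      have := glue (h1 n).2 (h2 n).2 (hclip n) (hmatch n) r r'
      calc (1 / 2 : ℝ) ^ n * _ ≤ (1 / 2) ^ n * (2 ^ n * |r - r'|) :=
            mul_le_mul_of_nonneg_left this (by positivity)
        _ = |r - r'| := by rw [← mul_assoc, two_pow_half, one_mul]
  have hu2 := abs_le.mp huδ
  refine ⟨18 * δ + u, by linarith, by linarith, fun r => ⟨γ r, hγZ r⟩, hslow, ?_, ?_⟩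
  · apply Subtype.ext
    funext n
    by_cases hn : n = 0
    · subst hn
      change γ 0 0 = x.1 0
      rw [hγ0, zig_zero hδ0, add_zero, ht]
    · change γ 0 n = x.1 n
      rw [hγn 0 n hn, if_pos (mul_nonneg (by positivity) (hs0 n))]
      simp only [hc]
      rw [zig_zero hδ0, mul_zero, add_zero]
      exact h3 n (by omega)
  · apply Subtype.ext
    funext n
    by_cases hn : n = 0
    · subst hn
      change γ (18 * δ + u) 0 = y.1 0
      rw [hγ0, zig_end huδ, hy0]
    · change γ (18 * δ + u) n = y.1 n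
      have e : c n (18 * δ + u) = 2 ^ n * t - 1 / 12 + 2 ^ n * u := by
        simp only [hc]
        rw [zig_end huδ]
      rw [hγn _ n hn]
      split_ifs with h5
      · have h6 : (1 / 2) ^ n * s n ≤ 18 * δ + u := by
          have := mul_le_mul_of_nonneg_left (hs1 n) (show (0 : ℝ) ≤ (1 / 2) ^ n by positivity)
          refine this.trans (le_of_eq ?_)
          rw [show 18 * ((2 : ℝ) ^ n * δ) + 2 ^ n * u = 2 ^ n * (18 * δ + u) by ring, ← mul_assoc,
            two_pow_half, one_mul]
        have h7 : 18 * δ + u = (1 / 2) ^ n * s n := le_antisymm h5 h6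
        rw [h7, hmatch, ← h7, e]
        exact h4 n (by omega)
      · rw [e]
        exact h4 n (by omega)

/-! ### The space -/

/-- The space: the subset with the distance given by the lengths of paths. -/
def X : Type := Z

noncomputable instance : MetricSpace X where
  dist := fun x y => ld (W := Z) x y
  dist_self := fun x => ld_self (W := Z) x
  dist_comm := fun x y => ld_comm (W := Z) x y
  dist_triangle := fun x y z => ld_triangle quasi x y z
  eq_of_dist_eq_zero := by
    intro x y h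
    have h1 := dist_le_ld quasi x y
    have h2 : ld (W := Z) x y = 0 := h
    rw [h2] at h1
    exact (dist_le_zero (γ := Z)).mp h1

/-- the identity -/
def toX (x : Z) : X := x

/-- the identity -/
def ofX (x : X) : Z := x

theorem X_dist (x y : X) : dist x y = ld (ofX x) (ofX y) := rfl

theorem dist_le_X (x y : X) : dist (ofX x) (ofX y) ≤ dist x y := dist_le_ld quasi (ofX x) (ofX y)

theorem X_dist_le (x y : X) : dist x y ≤ 19 * dist (ofX x) (ofX y) :=
  ld_le_mul quasi (ofX x) (ofX y)

instance : CompactSpace X := by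
  have h1 : Function.Surjective toX := fun x => ⟨x, rfl⟩
  have h2 : LipschitzWith 19 toX := by
    apply LipschitzWith.of_dist_le_mul
    intro x y
    exact X_dist_le (toX x) (toX y)
  exact h1.compactSpace h2.continuous

theorem geodesic : IsGeodesicSpace X := by
  intro x y
  obtain ⟨h0, γ, hγ, h1, h2⟩ := ld_attained quasi (ofX x) (ofX y)
  set p : ℝ → X := fun s => toX (γ (s * dist x y)) with hp
  have hp0 : p 0 = x := by
    simp only [hp, zero_mul, h1]
    rfl
  have hp1 : p 1 = y := by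
    simp only [hp, one_mul]
    rw [X_dist, h2]
    rfl
  have hlip : LipschitzOnWith (Real.toNNReal (dist x y)) p (Icc 0 1) := by
    apply LipschitzOnWith.of_dist_le_mul
    intro s hs s' hs'
    rw [Real.coe_toNNReal _ dist_nonneg, Real.dist_eq]
    have h3 := hγ.ld_le (s * dist x y) (s' * dist x y)
    rw [← sub_mul, abs_mul, abs_of_nonneg (dist_nonneg (x := x) (y := y))] at h3
    rw [mul_comm]
    exact h3
  refine ⟨p, hlip.continuousOn, hp0, hp1, le_antisymm ?_ ?_⟩
  · have h1 := hlip.comp_eVariationOn_le (f := p) (g := (id : ℝ → ℝ)) (s := Icc 0 1)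
      (fun s hs => hs)
    rw [Function.comp_id] at h1
    refine h1.trans ?_
    have h2 : eVariationOn (id : ℝ → ℝ) (Icc 0 1 ∩ Icc 0 1) = ENNReal.ofReal (id 1 - id 0) :=
      MonotoneOn.eVariationOn_eq (monotone_id.monotoneOn _) (by simp) (by simp)
    rw [inter_self] at h2
    have h3 : eVariationOn (id : ℝ → ℝ) (Icc 0 1) ≤ 1 := by rw [h2]; simp
    calc (Real.toNNReal (dist x y) : ENNReal) * eVariationOn (id : ℝ → ℝ) (Icc 0 1)
        ≤ (Real.toNNReal (dist x y) : ENNReal) * 1 := by gcongr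
      _ = edist x y := by rw [mul_one, edist_dist]; rfl
  · have := eVariationOn.edist_le p (s := Icc (0 : ℝ) 1) (x := 0) (y := 1) (by simp) (by simp)
    rwa [hp0, hp1] at this

end Pool.Agent.N272.Dbl
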